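import Pool.Agent.H27.L1.H34.GZ.Targets2

/-!
# Row EXT of the board gz: representatives of the integer matrices of determinant `n`
-/

set_option autoImplicit false

namespace Pool.Agent.H27.L1.H14.GZ

open Pool.Agent.H27.L1.H34.GM Pool.Agent.H27.L1.H34.GZ Matrix

namespace EXT

/-- matrices of the same determinant which are congruent modulo `n` are in one class -/
lemma congr_unit {m n : ℕ} (hn : 1 ≤ n) {α β : ZM m} (hα : α.det.natAbs = n)
    (hβ : β.det.natAbs = n) (h : cQ n α = cQ n β) : ∃ γ : ZM m, IsUnit γ ∧ β = γ * α := by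
  have h1 : ∀ i j, ∃ w : ℤ, β i j = α i j + n * w := by
    intro i j
    have h2 : ((α i j : ℤ) : ZMod n) = ((β i j : ℤ) : ZMod n) := congrFun (congrFun h i) j
    have h3 := (ZMod.intCast_eq_intCast_iff_dvd_sub _ _ _).1 h2
    obtain ⟨w, hw⟩ := h3
    exact ⟨w, by linarith⟩
  choose w hw using h1
  obtain ⟨ε, hε⟩ : ∃ ε : ℤ, (n : ℤ) = ε * α.det := by
    rcases Int.natAbs_eq α.det with h2 | h2
    · refine ⟨1, ?_⟩
      rw [hα] at h2
      rw [one_mul, h2]
    · refine ⟨-1, ?_⟩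
      rw [hα] at h2
      rw [h2]
      ring
  set γ : ZM m := 1 + ε • (Matrix.of w * α.adjugate) with hγ
  have hβγ : β = γ * α := by
    rw [hγ, Matrix.add_mul, Matrix.one_mul, smul_mul_assoc, Matrix.mul_assoc, adjugate_mul,
      Matrix.mul_smul, Matrix.mul_one, smul_smul, ← hε]
    ext i j
    rw [hw i j]
    rfl
  refine ⟨γ, ?_, hβγ⟩
  rw [isUnit_iff_isUnit_det, Int.isUnit_iff_natAbs_eq]
  have h4 := congrArg (fun M => (Matrix.det M).natAbs) hβγ
  simp only [det_mul, Int.natAbs_mul, hα, hβ] at h4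
  nlinarith

/-- one `n` -/
lemma one {m n : ℕ} (hn : 1 ≤ n) : ∃ S : Finset (ZM m), (∀ α ∈ S, α.det.natAbs = n) ∧
    ∀ β : ZM m, β.det.natAbs = n → ∃! α, α ∈ S ∧ ∃ γ : ZM m, IsUnit γ ∧ β = γ * α := by
  classical
  have : NeZero n := ⟨by omega⟩
  let s : Setoid {α : ZM m // α.det.natAbs = n} :=
    { r := fun α β => ∃ γ : ZM m, IsUnit γ ∧ β.1 = γ * α.1
      iseqv :=
        { refl := fun α => ⟨1, isUnit_one, (Matrix.one_mul _).symm⟩
          symm := by
            rintro α β ⟨γ, ⟨u, rfl⟩, h⟩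
            refine ⟨(u⁻¹ : (ZM m)ˣ), Units.isUnit _, ?_⟩
            rw [h, ← Matrix.mul_assoc, Units.inv_mul, Matrix.one_mul]
          trans := by
            rintro α β δ ⟨γ, h1, h2⟩ ⟨γ', h1', h2'⟩
            refine ⟨γ' * γ, h1'.mul h1, ?_⟩
            rw [h2', h2, Matrix.mul_assoc] } }
  have : Finite (RM m n) := inferInstanceAs (Finite (Fin m → Fin m → ZMod n))
  have : Finite (Quotient s) := by
    refine Finite.of_injective (fun q : Quotient s => cQ n q.out.1) fun q q' h => ?_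
    have h1 := congr_unit hn q.out.2 q'.out.2 h
    rw [← Quotient.out_eq q, ← Quotient.out_eq q']
    exact Quotient.sound h1
  have : Fintype (Quotient s) := Fintype.ofFinite _
  refine ⟨Finset.univ.image fun q : Quotient s => q.out.1, ?_, ?_⟩
  · intro α hα
    obtain ⟨q, -, rfl⟩ := Finset.mem_image.1 hα
    exact q.out.2
  · intro β hβ
    refine ⟨(Quotient.mk s ⟨β, hβ⟩).out.1, ⟨Finset.mem_image_of_mem _ (Finset.mem_univ _),
      Quotient.mk_out (s := s) ⟨β, hβ⟩⟩, ?_⟩
    rintro α ⟨hα, γ, hγ, h⟩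
    obtain ⟨q, -, rfl⟩ := Finset.mem_image.1 hα
    have h1 : Quotient.mk s q.out = Quotient.mk s ⟨β, hβ⟩ := Quotient.sound ⟨γ, hγ, h⟩
    rw [Quotient.out_eq] at h1
    rw [h1]

end EXT

theorem pf_EXT : T_EXT := by
  classical
  intro m _
  refine ⟨fun n => if h : 1 ≤ n then (EXT.one (m := m) h).choose else ∅, ?_, ?_⟩
  · intro n hn
    simp only [dif_pos hn]
    exact (EXT.one (m := m) hn).choose_spec.1
  · intro n hn
    simp only [dif_pos hn]
    exact (EXT.one (m := m) hn).choose_spec.2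

end Pool.Agent.H27.L1.H14.GZ
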