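import Pool.Agent.H27.L1.H16.GZ.Targets4
import Pool.Agent.H27.L1.H34.GM.ZLB

/-!
# Row TLB of the board gz: lower bound for the local transform at one
-/

set_option autoImplicit false

namespace Pool.Agent.H27.L1.H14.GZ

open MeasureTheory Pool.Agent.H27.L1.H34.GM Pool.Agent.H27.L1.H34.GZ

namespace TLB

lemma aN_smul {m : ℕ} (hm1 : 1 ≤ m) (c : ℝ) (hc : 0 < c) (z : Mat m) : aN (c • z) = c * aN z := by
  unfold aN
  have hm0 : (m : ℝ) ≠ 0 := by
    have : (0 : ℝ) < m := by exact_mod_cast hm1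
    exact this.ne'
  rw [Matrix.det_smul, Fintype.card_fin, abs_mul, abs_of_pos (pow_pos hc m),
    Real.mul_rpow (pow_nonneg hc.le m) (abs_nonneg _), ← Real.rpow_natCast, ← Real.rpow_mul hc.le,
    mul_one_div_cancel hm0, Real.rpow_one]

lemma meas_aN {m : ℕ} : Measurable (fun z : V m => aN (mt z)) := by
  unfold aN
  exact ((zlb_cmt (m := m)).matrix_det).abs.measurable.pow_const _

lemma meas_Shell {m : ℕ} : MeasurableSet (Shell m) := by
  have h1 : MeasurableSet {z : V m | 1 ≤ aN (mt z)} := measurableSet_le measurable_const meas_aN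
  have h2 : MeasurableSet {z : V m | aN (mt z) < Real.exp 1} :=
    measurableSet_lt meas_aN measurable_const
  exact h1.inter h2

lemma cont_zlbS {m : ℕ} : Continuous (fun z : V m => zlbS (mt z)) := by
  unfold zlbS
  refine continuous_finsetSum _ (fun i _ => continuous_finsetSum _ (fun j _ => ?_))
  refine Continuous.pow ?_ 2
  have hc2 : Continuous (fun z : V m => (mt z).transpose * mt z - 1) :=
    ((zlb_cmt (m := m)).matrix_transpose.matrix_mul (zlb_cmt (m := m))).sub continuous_const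
  exact hc2.matrix_elem i j

/-- the determinant near the orthogonal group -/
lemma near (hP : T_PWN) (m : ℕ) (hm1 : 1 ≤ m) : ∃ K κ : ℝ, 0 < K ∧ 0 < κ ∧ ∀ (δ : ℝ) (z : Mat m),
    0 < δ → δ ≤ κ → zlbS z ≤ δ ^ 2 → z.det ≠ 0 ∧ |aN z - 1| ≤ K * δ := by
  obtain ⟨C, c, hC, hc, h⟩ := hP m hm1
  set mu : Fin m → ℂ := fun j => (2 * ((j : ℕ) + 1 : ℂ) - m - 1) / 2 with hmu
  set w : ℝ := 1 / (m : ℝ) with hw
  set P : ℝ := 1 + ‖(w : ℂ)‖ + ∑ j, ‖mu j‖ with hPd
  have hP0 : 0 < P := by positivity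
  refine ⟨C * P, c / P, by positivity, by positivity, fun δ z hδ hδκ hz => ?_⟩
  have h1 : δ * P ≤ c := by rwa [le_div_iff₀ hP0] at hδκ
  obtain ⟨h2, h3⟩ := h mu w δ z hδ hz h1
  refine ⟨h2, ?_⟩
  have h4 : pw mu z = 1 := by
    unfold pw
    refine Finset.prod_eq_one fun j _ => ?_
    have : (-(mu j) + (2 * ((j : ℕ) + 1 : ℂ) - m - 1) / 2) / 2 = 0 := by
      rw [hmu]
      ring
    rw [this, Complex.cpow_zero]
  rw [h4, mul_one, ← Complex.ofReal_cpow (abs_nonneg _), ← Complex.ofReal_one,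
    ← Complex.ofReal_sub, Complex.norm_real, Real.norm_eq_abs] at h3
  refine h3.trans (le_of_eq ?_)
  rw [hPd, hw]
  ring

/-- division by `aN` -/
lemma divS {m : ℕ} (hm1 : 1 ≤ m) (z : Mat m) (a K d : ℝ) (hK : 0 < K) (hd : 0 < d)
    (ha : |a - 1| ≤ K * d) (hKd : K * d ≤ 1 / 4) (hz : zlbS z ≤ d ^ 2 / 4) :
    zlbS (a⁻¹ • z) ≤ ((8 + 18 * m * K) * d) ^ 2 / 4 := by
  obtain ⟨ha1, ha2⟩ := abs_le.1 ha
  have ha0 : 3 / 4 ≤ a := by linarith
  have ha3 : a ≤ 5 / 4 := by linarith
  have hap : 0 < a := by linarith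
  have hmR : (1 : ℝ) ≤ m := by exact_mod_cast hm1
  set b : ℝ := (a⁻¹) ^ 2 with hb
  have hb0 : 0 ≤ b := by positivity
  have hb1 : b ≤ 2 := by
    rw [hb, inv_pow, inv_le_comm₀ (by positivity) (by norm_num)]
    nlinarith
  have hba : b * a ^ 2 = 1 := by
    rw [hb]
    field_simp
  have hb2 : |b - 1| ≤ 6 * (K * d) := by
    have e : b - 1 = b * (1 - a) * (1 + a) := by
      calc b - 1 = b - b * a ^ 2 := by rw [hba]
        _ = b * (1 - a) * (1 + a) := by ring
    rw [e, abs_mul, abs_mul, abs_of_nonneg hb0, abs_of_pos (by linarith : 0 < 1 + a),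
      abs_sub_comm 1 a]
    calc b * |a - 1| * (1 + a) ≤ 2 * (K * d) * 3 := by
          apply mul_le_mul _ (by linarith) (by linarith) (by positivity)
          exact mul_le_mul hb1 ha (abs_nonneg _) (by norm_num)
      _ = 6 * (K * d) := by ring
  have hent : ∀ i j, ((((a⁻¹ • z).transpose * (a⁻¹ • z) - 1) i j)) ^ 2 ≤
      8 * ((z.transpose * z - 1) i j) ^ 2 + (if i = j then 72 * (K * d) ^ 2 else 0) := by
    intro i j
    have e : ((a⁻¹ • z).transpose * (a⁻¹ • z) - 1) i j =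
        b * ((z.transpose * z - 1) i j) + (b - 1) * (1 : Mat m) i j := by
      rw [Matrix.transpose_smul, smul_mul_smul_comm, Matrix.sub_apply, Matrix.sub_apply,
        Matrix.smul_apply, smul_eq_mul, hb]
      ring
    rw [e]
    generalize (z.transpose * z - 1) i j = x
    have hb3 : (b - 1) ^ 2 ≤ (6 * (K * d)) ^ 2 := sq_le_sq' (by linarith [(abs_le.1 hb2).1])
      (abs_le.1 hb2).2
    have hb4 : b ^ 2 ≤ 4 := by nlinarith
    have hx : b ^ 2 * x ^ 2 ≤ 4 * x ^ 2 := mul_le_mul_of_nonneg_right hb4 (sq_nonneg x)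
    have h2 : ∀ p r : ℝ, (p + r) ^ 2 ≤ 2 * p ^ 2 + 2 * r ^ 2 := fun p r => by
      nlinarith [sq_nonneg (p - r)]
    refine (h2 _ _).trans ?_
    rw [mul_pow]
    split_ifs with hij
    · rw [Matrix.one_apply, if_pos hij, mul_one]
      nlinarith
    · rw [Matrix.one_apply, if_neg hij, mul_zero]
      nlinarith
  have h1 : zlbS (a⁻¹ • z) ≤ 8 * zlbS z + m * (72 * (K * d) ^ 2) := by
    unfold zlbS
    calc ∑ i, ∑ j, (((a⁻¹ • z).transpose * (a⁻¹ • z) - 1) i j) ^ 2
        ≤ ∑ i, ∑ j, (8 * ((z.transpose * z - 1) i j) ^ 2 +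
          (if i = j then 72 * (K * d) ^ 2 else 0)) :=
          Finset.sum_le_sum fun i _ => Finset.sum_le_sum fun j _ => hent i j
      _ = 8 * ∑ i, ∑ j, ((z.transpose * z - 1) i j) ^ 2 + m * (72 * (K * d) ^ 2) := by
          simp only [Finset.sum_add_distrib, Finset.mul_sum]
          simp
  refine h1.trans ?_
  have h4 : (m : ℝ) * K ^ 2 ≤ (m * K) ^ 2 := by
    rw [mul_pow]
    have : (m : ℝ) ≤ m ^ 2 := by nlinarith
    exact mul_le_mul_of_nonneg_right this (sq_nonneg K)
  have h5 : 0 ≤ (m : ℝ) * K := by positivity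
  have h6 : 0 ≤ d ^ 2 := sq_nonneg d
  have h7 : (m : ℝ) * K ^ 2 * d ^ 2 ≤ (m * K) ^ 2 * d ^ 2 := mul_le_mul_of_nonneg_right h4 h6
  have h8 : 0 ≤ (m : ℝ) * K * d ^ 2 := mul_nonneg h5 h6
  have h9 : ((8 + 18 * m * K) * d) ^ 2 / 4 =
      16 * d ^ 2 + 72 * (m * K * d ^ 2) + 81 * ((m * K) ^ 2 * d ^ 2) := by ring
  have h10 : (m : ℝ) * (72 * (K * d) ^ 2) = 72 * (m * K ^ 2 * d ^ 2) := by ring
  rw [h9, h10]
  have h11 : 0 ≤ (m : ℝ) * K ^ 2 * d ^ 2 := by positivity
  linarith

end TLB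

open TLB in
theorem pf_TLB (HAR : T_HAR) (PWC : T_PWC) (PWN : T_PWN) (BMP : T_BMP) : T_TLB := by
  classical
  intro m χ hm1 hχ
  obtain ⟨C, c0, hC, hc0, hP⟩ := PWN m hm1
  obtain ⟨K, κ, hK, hκ, hnear⟩ := near PWN m hm1
  obtain ⟨hB1, -⟩ := BMP m χ hm1 hχ
  have hmR : (1 : ℝ) ≤ m := by exact_mod_cast hm1
  set L : ℝ := 8 + 18 * m * K + 4 * K + 1 / κ with hL
  have hL0 : 0 < L := by positivity
  have hL1 : 1 ≤ L := by
    have : 0 < 18 * (m : ℝ) * K + 4 * K + 1 / κ := by positivity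
    linarith
  set cm : ℝ := (((m.factorial : ℝ) * 2 ^ m) ^ m)⁻¹ * ((3 * (m : ℝ) ^ 2)⁻¹) ^ (m ^ 2) with hcm
  have hcm0 : 0 < cm := by positivity
  refine ⟨min c0 (1 / (2 * C)), 1 / 2 * (cm * (L⁻¹) ^ (m ^ 2)), lt_min hc0 (by positivity),
    by positivity, ?_⟩
  intro mu δ h0 h1 hmu hδ
  have hPz : ∀ z : Mat m, zlbS z ≤ δ ^ 2 → z.det ≠ 0 ∧ ‖pw mu z - 1‖ ≤ 1 / 2 := by
    intro z hz
    have h2 : δ * (1 + ‖(0 : ℂ)‖ + ∑ j, ‖mu j‖) ≤ c0 := by
      rw [norm_zero, add_zero]
      exact hδ.trans (min_le_left _ _)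
    obtain ⟨h3, h4⟩ := hP mu 0 δ z h0 hz h2
    rw [Complex.cpow_zero, one_mul, norm_zero, add_zero] at h4
    refine ⟨h3, h4.trans ?_⟩
    have h5 := hδ.trans (min_le_right _ _)
    calc C * δ * (1 + ∑ j, ‖mu j‖) = C * (δ * (1 + ∑ j, ‖mu j‖)) := by ring
      _ ≤ C * (1 / (2 * C)) := mul_le_mul_of_nonneg_left h5 hC.le
      _ = 1 / 2 := by field_simp
  obtain ⟨hTst, -, -, -, hsupp⟩ := hB1 δ h0 h1
  obtain ⟨c', hc', hU⟩ := hTst.supp
  -- the normalized matrix
  set nz : V m → V m := fun z => (aN (mt z))⁻¹ • z with hnz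
  have hnzm : Measurable nz := (meas_aN.inv).smul measurable_id
  set φ : V m → ℝ := fun z => χ (zlbS (mt (nz z)) / δ ^ 2) with hφ
  have hφm : Measurable φ :=
    (hχ.smooth.continuous.measurable.comp ((cont_zlbS.measurable.comp hnzm).div_const _))
  have hφ0 : ∀ z, 0 ≤ φ z := fun z => hχ.lo _
  have hφ1 : ∀ z, φ z ≤ 1 := fun z => hχ.hi _
  have hbump : ∀ z : V m, bump m χ δ (((1 : ℝ)⁻¹ * (aN (mt z))⁻¹) • mt z) = ((φ z : ℝ) : ℂ) := by
    intro z
    rw [inv_one, one_mul]
    rfl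
  have hbump' : ∀ z : V m, bump m χ δ (mt (nz z)) = ((φ z : ℝ) : ℂ) := fun z => rfl
  have hφS : ∀ z, φ z ≠ 0 → zlbS (mt (nz z)) ≤ δ ^ 2 := by
    intro z hne
    refine hsupp (mt (nz z)) ?_
    rw [hbump']
    exact_mod_cast hne
  set ψ : V m → ℝ := (Shell m).indicator φ with hψ
  have hψm : Measurable ψ := hφm.indicator meas_Shell
  have hψ0 : ∀ z, 0 ≤ ψ z := fun z => Set.indicator_nonneg (fun z _ => hφ0 z) z
  have hψ1 : ∀ z, ψ z ≤ 1 := by
    intro z
    rw [hψ]
    by_cases hz : z ∈ Shell m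
    · rw [Set.indicator_of_mem hz]
      exact hφ1 z
    · rw [Set.indicator_of_notMem hz]
      norm_num
  have hψne : ∀ z, ψ z ≠ 0 → z ∈ Shell m ∧ φ z ≠ 0 := by
    intro z hz
    have hzS : z ∈ Shell m := by
      by_contra h
      exact hz (Set.indicator_of_notMem h _)
    rw [hψ, Set.indicator_of_mem hzS] at hz
    exact ⟨hzS, hz⟩
  have haN0 : ∀ z ∈ Shell m, 0 < aN (mt z) := fun z hz => lt_of_lt_of_le one_pos hz.1
  have hdet0 : ∀ z ∈ Shell m, (mt z).det ≠ 0 := by
    intro z hz h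
    have h2 := hz.1
    unfold aN at h2
    rw [h, abs_zero, Real.zero_rpow (by positivity)] at h2
    linarith
  set cU : ℝ := Real.exp 1 * c' + 1 with hcU
  have hcU0 : 1 ≤ cU := by
    have : 0 < Real.exp 1 * c' := by positivity
    linarith
  set U : Set (V m) := {z | sz (mt z) ≤ cU ∧ cU⁻¹ ≤ |(mt z).det|} with hUdef
  have hUm : MeasurableSet U := by
    have h5 : Measurable (fun z : V m => sz (mt z)) := by
      have : (fun z : V m => sz (mt z)) = fun z : V m => ‖z‖ := by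
        funext z
        rfl
      rw [this]
      exact measurable_norm
    have h6 : Measurable (fun z : V m => |(mt z).det|) :=
      ((zlb_cmt (m := m)).matrix_det).abs.measurable
    exact (measurableSet_le h5 measurable_const).inter (measurableSet_le measurable_const h6)
  have hUf : hm m U < ⊤ := (HAR m hm1).2.2.2 cU (by linarith)
  have hψU : ∀ z, ψ z ≠ 0 → z ∈ U := by
    intro z hz
    obtain ⟨hzS, hzφ⟩ := hψne z hz
    have ha := haN0 z hzS
    have h2 := hU (mt (nz z)) (by rw [hbump']; exact_mod_cast hzφ)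
    have h3 : sz (mt z) = aN (mt z) * sz (mt (nz z)) := by
      have e1 : sz (mt z) = ‖z‖ := rfl
      have e2 : sz (mt (nz z)) = ‖(aN (mt z))⁻¹ • z‖ := rfl
      rw [e1, e2, norm_smul, norm_inv, Real.norm_of_nonneg ha.le, ← mul_assoc,
        mul_inv_cancel₀ ha.ne', one_mul]
    refine ⟨?_, ?_⟩
    · rw [h3]
      have h4 : aN (mt z) * sz (mt (nz z)) ≤ Real.exp 1 * c' :=
        mul_le_mul hzS.2.le h2.1 (norm_nonneg _) (Real.exp_pos 1).le
      linarith
    · have h5 : 1 ≤ |(mt z).det| := by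
        by_contra hlt
        push Not at hlt
        have h6 : aN (mt z) < 1 := by
          unfold aN
          exact Real.rpow_lt_one (abs_nonneg _) hlt (by positivity)
        linarith [hzS.1]
      exact (inv_le_one_of_one_le₀ hcU0).trans h5
  set E : V m → ℂ := fun z => pw mu (mt z) with hE
  have hEm : Measurable E := zlb_pw mu
  have hE1 : ∀ z, ψ z ≠ 0 → ‖E z - 1‖ ≤ 1 / 2 := by
    intro z hz
    obtain ⟨hzS, hzφ⟩ := hψne z hz
    have h2 := (hPz _ (hφS z hzφ)).2
    have h3 : pw mu (mt (nz z)) = pw mu (mt z) :=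
      (PWC m hm1 mu).2 hmu _ (inv_pos.2 (haN0 z hzS)) (mt z) (hdet0 z hzS)
    rw [h3] at h2
    exact h2
  have hgint : Integrable (U.indicator (fun _ => (3 / 2 : ℝ))) (hm m) := by
    rw [integrable_indicator_iff hUm]
    exact integrableOn_const hUf.ne
  have hint : Integrable (fun z => ((ψ z : ℝ) : ℂ) * E z) (hm m) := by
    refine Integrable.mono' hgint
      ((Complex.measurable_ofReal.comp hψm).mul hEm).aestronglyMeasurable
      (Filter.Eventually.of_forall (fun z => ?_))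
    by_cases hz : ψ z = 0
    · rw [hz]
      simp only [Complex.ofReal_zero, zero_mul, norm_zero]
      exact Set.indicator_nonneg (fun _ _ => by norm_num) z
    · rw [Set.indicator_of_mem (hψU z hz), norm_mul, Complex.norm_real, Real.norm_eq_abs,
        abs_of_nonneg (hψ0 z)]
      have h9 : ‖E z‖ ≤ 3 / 2 := by
        have h10 := hE1 z hz
        have h11 : ‖E z‖ ≤ ‖E z - 1‖ + ‖(1 : ℂ)‖ := by
          have := norm_add_le (E z - 1) 1
          simpa using this
        rw [norm_one] at h11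
        linarith
      calc ψ z * ‖E z‖ ≤ 1 * (3 / 2) :=
            mul_le_mul (hψ1 z) h9 (norm_nonneg _) (by norm_num)
        _ = 3 / 2 := by ring
  have hψint : Integrable ψ (hm m) := by
    refine Integrable.mono' hgint hψm.aestronglyMeasurable
      (Filter.Eventually.of_forall (fun z => ?_))
    by_cases hz : ψ z = 0
    · rw [hz]
      simp only [norm_zero]
      exact Set.indicator_nonneg (fun _ _ => by norm_num) z
    · rw [Set.indicator_of_mem (hψU z hz), Real.norm_eq_abs, abs_of_nonneg (hψ0 z)]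
      linarith [hψ1 z]
  have hZ : th1 (bump m χ δ) mu 1 = ∫ z, ((ψ z : ℝ) : ℂ) * E z ∂(hm m) := by
    unfold th1
    rw [← integral_indicator meas_Shell]
    refine integral_congr_ae (Filter.Eventually.of_forall (fun z => ?_))
    show (Shell m).indicator (fun z : V m => bump m χ δ (((1 : ℝ)⁻¹ * (aN (mt z))⁻¹) • mt z) *
      pw mu (mt z)) z = ((ψ z : ℝ) : ℂ) * E z
    by_cases hz : z ∈ Shell m
    · rw [Set.indicator_of_mem hz, hbump, hψ, Set.indicator_of_mem hz]
    · rw [Set.indicator_of_notMem hz, hψ, Set.indicator_of_notMem hz, Complex.ofReal_zero,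
        zero_mul]
  have hre : (1 / 2) * ∫ z, ψ z ∂(hm m) ≤ (th1 (bump m χ δ) mu 1).re := by
    rw [hZ]
    have h12 : (∫ z, ((ψ z : ℝ) : ℂ) * E z ∂(hm m)).re =
        ∫ z, (((ψ z : ℝ) : ℂ) * E z).re ∂(hm m) := by
      exact (integral_re hint).symm
    rw [h12, ← integral_const_mul]
    refine integral_mono (hψint.const_mul _) hint.re (fun z => ?_)
    show 1 / 2 * ψ z ≤ (((ψ z : ℝ) : ℂ) * E z).re
    rw [Complex.re_ofReal_mul]
    by_cases hz : ψ z = 0
    · rw [hz]
      simp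
    · have h10 := hE1 z hz
      have h13 : |(E z - 1).re| ≤ 1 / 2 := (Complex.abs_re_le_norm _).trans h10
      rw [Complex.sub_re, Complex.one_re] at h13
      have h14 := (abs_le.1 h13).1
      have h15 : 1 / 2 ≤ (E z).re := by linarith
      nlinarith [hψ0 z]
  -- the lower bound
  set d : ℝ := δ / L with hd
  have hd0 : 0 < d := by positivity
  have hdL : L * d = δ := by
    rw [hd]
    field_simp
  have hd1 : d ≤ δ := by
    rw [hd]
    exact div_le_self h0.le hL1
  have hKd : K * d ≤ 1 / 4 := by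
    have h2 : 4 * K * d ≤ L * d := mul_le_mul_of_nonneg_right (by
      have : 0 < 18 * (m : ℝ) * K + 1 / κ := by positivity
      linarith) hd0.le
    rw [hdL] at h2
    linarith
  have hκd : d ≤ κ := by
    have h2 : 1 / κ * d ≤ L * d := mul_le_mul_of_nonneg_right (by
      have : 0 < 18 * (m : ℝ) * K + 4 * K := by positivity
      linarith) hd0.le
    rw [hdL, one_div, inv_mul_le_iff₀ hκ] at h2
    nlinarith
  have hA : ENNReal.ofReal (cm * d ^ (m ^ 2)) ≤ hm m {z | zlbS (mt z) ≤ d ^ 2 / 4} :=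
    zlb_hm hm1 d hd0 (by linarith) fun z hz => (hnear d z hd0 hκd (by nlinarith)).1
  have hSm : MeasurableSet {z : V m | zlbS (mt z) ≤ d ^ 2 / 4} :=
    measurableSet_le cont_zlbS.measurable measurable_const
  have hlow : cm * d ^ (m ^ 2) ≤ ∫ z, ψ z ∂(hm m) := by
    set s : ℝ := Real.exp (-(1 / 2)) with hs
    have hs0 : 0 < s := Real.exp_pos _
    have hsd : ((s • (1 : Mat m)) : Mat m).det ≠ 0 := by
      rw [Matrix.det_smul, Matrix.det_one, mul_one]
      exact (pow_pos hs0 _).ne'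
    have h2 := ((HAR m hm1).1 (s • (1 : Mat m)) hsd
      ({z : V m | zlbS (mt z) ≤ d ^ 2 / 4}.indicator 1) (measurable_one.indicator hSm)).1
    rw [lintegral_indicator_one hSm] at h2
    have h3 : hm m {z : V m | zlbS (mt z) ≤ d ^ 2 / 4} ≤ ∫⁻ z, ENNReal.ofReal (ψ z) ∂(hm m) := by
      rw [← h2]
      refine lintegral_mono (fun z => ?_)
      have e1 : (fun i j => ((s • (1 : Mat m)) * mt z) i j : V m) = s • z := by
        funext i j
        rw [smul_mul_assoc, Matrix.one_mul]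
        rfl
      show ({z : V m | zlbS (mt z) ≤ d ^ 2 / 4}.indicator 1
        (fun i j => ((s • (1 : Mat m)) * mt z) i j : V m) : ENNReal) ≤ ENNReal.ofReal (ψ z)
      rw [e1]
      by_cases hz : s • z ∈ {z : V m | zlbS (mt z) ≤ d ^ 2 / 4}
      · rw [Set.indicator_of_mem hz, Pi.one_apply, ← ENNReal.ofReal_one]
        refine ENNReal.ofReal_le_ofReal ?_
        have hzs : zlbS (mt (s • z)) ≤ d ^ 2 / 4 := hz
        have h4 : |aN (mt (s • z)) - 1| ≤ K * d := (hnear d _ hd0 hκd (by nlinarith)).2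
        have h5 : aN (mt (s • z)) = s * aN (mt z) := aN_smul hm1 s hs0 (mt z)
        obtain ⟨h6, h7⟩ := abs_le.1 h4
        have hse : Real.exp (1 / 2) * s = 1 := by
          rw [hs, ← Real.exp_add]
          norm_num
        have h8 : aN (mt z) = Real.exp (1 / 2) * aN (mt (s • z)) := by
          rw [h5, ← mul_assoc, hse, one_mul]
        have he1 : 1 + 1 / 2 ≤ Real.exp (1 / 2) := by
          have := Real.add_one_le_exp (1 / 2 : ℝ)
          linarith
        have he2 : Real.exp 1 = Real.exp (1 / 2) * Real.exp (1 / 2) := by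
          rw [← Real.exp_add]
          norm_num
        have hpos := Real.exp_pos (1 / 2 : ℝ)
        have he3 : 1 / 2 + (1 / 2 : ℝ) ^ 2 / 2 + 1 ≤ Real.exp (1 / 2) := by
          have := Real.quadratic_le_exp_of_nonneg (x := (1 / 2 : ℝ)) (by norm_num)
          linarith
        have hzS : z ∈ Shell m := by
          refine ⟨?_, ?_⟩
          · rw [h8]
            nlinarith
          · rw [h8, he2]
            refine mul_lt_mul_of_pos_left ?_ hpos
            linarith
        have h9 : mt (nz z) = (aN (mt (s • z)))⁻¹ • mt (s • z) := by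
          have h10 : mt (nz z) = (aN (mt z))⁻¹ • mt z := rfl
          have h11 : mt (s • z) = s • mt z := rfl
          rw [h10, h5, h11, smul_smul]
          congr 1
          have := (haN0 z hzS).ne'
          field_simp
        have h12 := divS hm1 (mt (s • z)) _ K d hK hd0 h4 hKd hzs
        rw [← h9] at h12
        have h13 : ((8 + 18 * m * K) * d) ^ 2 / 4 ≤ δ ^ 2 / 4 := by
          have h14 : (8 + 18 * m * K) * d ≤ δ := by
            rw [← hdL]
            apply mul_le_mul_of_nonneg_right _ hd0.le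
            have : 0 < 4 * K + 1 / κ := by positivity
            linarith
          have h15 : 0 ≤ (8 + 18 * m * K) * d := by positivity
          have := pow_le_pow_left₀ h15 h14 2
          linarith
        have h16 : φ z = 1 := by
          refine hχ.one _ ?_
          have h20 : 0 ≤ zlbS (mt (nz z)) := by
            unfold zlbS
            exact Finset.sum_nonneg (fun i _ => Finset.sum_nonneg (fun j _ => sq_nonneg _))
          rw [abs_of_nonneg (by positivity), div_le_iff₀ (by positivity)]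
          linarith
        rw [hψ, Set.indicator_of_mem hzS, h16]
      · rw [Set.indicator_of_notMem hz]
        exact bot_le
    rw [← ofReal_integral_eq_lintegral_ofReal hψint
      (Filter.Eventually.of_forall hψ0)] at h3
    exact (ENNReal.ofReal_le_ofReal_iff (integral_nonneg hψ0)).1 (hA.trans h3)
  have hdd : d ^ (m ^ 2) = (L⁻¹) ^ (m ^ 2) * δ ^ (m ^ 2) := by
    rw [hd, div_eq_inv_mul, mul_pow]
  rw [hdd] at hlow
  calc 1 / 2 * (cm * (L⁻¹) ^ (m ^ 2)) * δ ^ (m ^ 2) =
        1 / 2 * (cm * ((L⁻¹) ^ (m ^ 2) * δ ^ (m ^ 2))) := by ring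
    _ ≤ 1 / 2 * ∫ z, ψ z ∂(hm m) := mul_le_mul_of_nonneg_left hlow (by norm_num)
    _ ≤ (th1 (bump m χ δ) mu 1).re := hre
    _ ≤ ‖th1 (bump m χ δ) mu 1‖ := Complex.re_le_norm _

end Pool.Agent.H27.L1.H14.GZ
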